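import Mathlib
import Pool.Agent.H448.SM.Main

/-!
# Multiplicative relations between conjugates of an algebraic number (Smyth's conjecture)

Let `b` be a vector of `d ≥ 1` integers. The relation `α_1 ^ b_1 ⋯ α_d ^ b_d = 1` has a solution in
conjugates `α_1 = α, …, α_d` (repetitions allowed, degree of `α` arbitrary) of a nonzero algebraic
number `α` that is not a root of unity if and only if for every index `i` the number `|b_i|` is at
most the sum of the other `|b_j|`, and `b_i` is divisible by the greatest common divisor of the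
other `b_j`; `α` can then be taken to be an algebraic unit. For vectors `b` whose entries have
greatest common divisor `1` this is the condition that `b` satisfies neither (A) nor (B).
Vectors with a common divisor have to be divided by it first: `(2, 4, 4)` satisfies neither (A) nor
(B), but the relation `α_1 ^ 2 α_2 ^ 4 α_3 ^ 4 = 1` has no solution that is not a root of unity.
-/

set_option autoImplicit false

namespace Pool.Agent.Results.MP_e29efe_nt.SmythMultiplicative

open Finset Polynomial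

/-- Condition (A): some `|b i|` is larger than the sum of all the other `|b j|`. -/
def CondA {d : ℕ} (b : Fin d → ℤ) : Prop := ∃ i, ∑ j ∈ univ.erase i, |b j| < |b i|

/-- Condition (B): for some index `i` and some prime `p`, `p` does not divide `b i` but divides
every other `b j`. -/
def CondB {d : ℕ} (b : Fin d → ℤ) : Prop :=
  ∃ (i : Fin d) (p : ℕ), p.Prime ∧ ¬ (p : ℤ) ∣ b i ∧ ∀ j, j ≠ i → (p : ℤ) ∣ b j

/-- A solution of `(R_b)`: a nonzero algebraic number `α` together with conjugates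
`c_1 = α, c_2, …, c_d` of `α` (complex roots of the minimal polynomial of `α` over `ℚ`, repetitions
allowed, the degree of `α` is arbitrary) for which `∏ c_i ^ b_i = 1`. -/
structure IsSolution {d : ℕ} (hd : 0 < d) (b : Fin d → ℤ) (α : ℂ) (c : Fin d → ℂ) : Prop where
  ne_zero : α ≠ 0
  algebraic : IsAlgebraic ℚ α
  first : c ⟨0, hd⟩ = α
  conjugate : ∀ i, aeval (c i) (minpoly ℚ α) = 0
  relation : ∏ i, c i ^ b i = 1

/-- `α` is a root of unity. -/
def IsRootOfUnity (α : ℂ) : Prop := ∃ n : ℕ, 0 < n ∧ α ^ n = 1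

/-- `α` is an algebraic unit. -/
def IsAlgebraicUnit (α : ℂ) : Prop := α ≠ 0 ∧ IsIntegral ℤ α ∧ IsIntegral ℤ α⁻¹

/-- The two conditions on `b`. -/
def Balanced {d : ℕ} (b : Fin d → ℤ) : Prop :=
  (∀ i, |b i| ≤ ∑ j ∈ univ.erase i, |b j|) ∧
    ∀ (i : Fin d) (q : ℤ), (∀ j, j ≠ i → q ∣ b j) → q ∣ b i

theorem necessity {d : ℕ} (hd : 0 < d) (b : Fin d → ℤ) (α : ℂ) (c : Fin d → ℂ)
    (h : IsSolution hd b α c) (hα : ¬ IsRootOfUnity α) : Balanced b :=
  Pool.Agent.H448.SM.necessity b α c h.ne_zero h.algebraic h.conjugate h.relation hα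

theorem sufficiency {d : ℕ} (hd : 0 < d) (b : Fin d → ℤ) (h : Balanced b) :
    ∃ (α : ℂ) (c : Fin d → ℂ), IsSolution hd b α c ∧ ¬ IsRootOfUnity α ∧ IsAlgebraicUnit α := by
  obtain ⟨N, π, v, hv, hrel⟩ := Pool.Agent.H448.SM.exists_perm b h.1 h.2
  obtain ⟨c, h1, h2, h3, h4, h5, h6⟩ := Pool.Agent.H448.SM.mult_of_perm b π v hv hrel
  refine ⟨c ⟨0, hd⟩, c, ⟨h3 _, ?_, rfl, fun i => ?_, h5⟩, ?_, h3 _, h1 _, h2 _⟩
  · exact ((h1 ⟨0, hd⟩).tower_top (A := ℚ)).isAlgebraic
  · rw [h4 ⟨0, hd⟩ i]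
    exact minpoly.aeval ℚ (c i)
  · rintro ⟨n, hn, h⟩
    exact h6 _ n hn h

theorem balanced_iff {d : ℕ} (b : Fin d → ℤ) (hb : ∀ q : ℕ, (∀ i, (q : ℤ) ∣ b i) → q = 1) :
    Balanced b ↔ ¬ CondA b ∧ ¬ CondB b := by
  constructor
  · rintro ⟨h1, h2⟩
    refine ⟨fun ⟨i, hi⟩ => absurd (h1 i) (not_le.2 hi), ?_⟩
    rintro ⟨i, p, -, hpi, hj⟩
    exact hpi (h2 i p hj)
  · rintro ⟨h1, h2⟩
    refine ⟨fun i => ?_, fun i q hq => ?_⟩
    · by_contra hlt
      exact h1 ⟨i, not_le.1 hlt⟩
    · by_contra hcon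
      have hq1 : q.natAbs ≠ 1 := by
        intro h
        apply hcon
        rw [← Int.natAbs_dvd, h, Nat.cast_one]
        exact one_dvd _
      obtain ⟨p, hp, hpq⟩ := Nat.exists_prime_and_dvd hq1
      have hpq' : (p : ℤ) ∣ q := Int.natCast_dvd.2 hpq
      by_cases hpi : (p : ℤ) ∣ b i
      · have := hb p (fun j => by
          by_cases hj : j = i
          · rw [hj]; exact hpi
          · exact hpq'.trans (hq j hj))
        exact hp.one_lt.ne' this
      · exact h2 ⟨i, p, hp, hpi, fun j hj => hpq'.trans (hq j hj)⟩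

/-- **Smyth's conjecture, multiplicative form.** -/
theorem result :
    -- (1) the complete answer for all vectors
    (∀ (d : ℕ) (hd : 0 < d) (b : Fin d → ℤ),
      ((∃ (α : ℂ) (c : Fin d → ℂ), IsSolution hd b α c ∧ ¬ IsRootOfUnity α) ↔
        (∀ i, |b i| ≤ ∑ j ∈ univ.erase i, |b j|) ∧
          ∀ (i : Fin d) (q : ℤ), (∀ j, j ≠ i → q ∣ b j) → q ∣ b i) ∧
      ((∃ (α : ℂ) (c : Fin d → ℂ), IsSolution hd b α c ∧ ¬ IsRootOfUnity α) →
        ∃ (α : ℂ) (c : Fin d → ℂ), IsSolution hd b α c ∧ ¬ IsRootOfUnity α ∧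
          IsAlgebraicUnit α)) ∧
    -- (2) vectors whose entries have greatest common divisor one
    (∀ (d : ℕ) (hd : 0 < d) (b : Fin d → ℤ), (∀ q : ℕ, (∀ i, (q : ℤ) ∣ b i) → q = 1) →
      ((∃ (α : ℂ) (c : Fin d → ℂ), IsSolution hd b α c ∧ ¬ IsRootOfUnity α) ↔
        ¬ CondA b ∧ ¬ CondB b)) ∧
    -- (3) the vector `(2, 4, 4)`
    (¬ CondA ![2, 4, 4] ∧ ¬ CondB ![2, 4, 4] ∧ ∀ (α : ℂ) (c : Fin 3 → ℂ),
      IsSolution (d := 3) (by norm_num) ![2, 4, 4] α c → IsRootOfUnity α) := by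
  refine ⟨fun d hd b => ⟨⟨?_, ?_⟩, ?_⟩, fun d hd b hb => ?_, ?_, ?_, ?_⟩
  · rintro ⟨α, c, h, hα⟩
    exact necessity hd b α c h hα
  · intro h
    obtain ⟨α, c, h1, h2, -⟩ := sufficiency hd b h
    exact ⟨α, c, h1, h2⟩
  · rintro ⟨α, c, h, hα⟩
    exact sufficiency hd b (necessity hd b α c h hα)
  · rw [← balanced_iff b hb]
    constructor
    · rintro ⟨α, c, h, hα⟩
      exact necessity hd b α c h hα
    · intro h
      obtain ⟨α, c, h1, h2, -⟩ := sufficiency hd b h
      exact ⟨α, c, h1, h2⟩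
  · rintro ⟨i, hi⟩
    revert hi
    fin_cases i <;> decide
  · rintro ⟨i, p, hp, h1, h2⟩
    have h3 : (p : ℤ) ∣ 2 ∨ (p : ℤ) ∣ 4 := by
      fin_cases i
      · right; exact h2 1 (by decide)
      · left; exact h2 0 (by decide)
      · left; exact h2 0 (by decide)
    have h4 : (p : ℤ) ∣ 2 := by
      rcases h3 with h | h
      · exact h
      · have h5 : (p : ℤ) ∣ 2 ^ 2 := by norm_num; exact h
        exact (Nat.prime_iff_prime_int.1 hp).dvd_of_dvd_pow h5
    apply h1
    fin_cases i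
    · exact h4
    · exact h4.trans (by norm_num)
    · exact h4.trans (by norm_num)
  · intro α c h
    by_contra hα
    have h1 := (necessity _ _ α c h hα).2 0 4 (by
      intro j hj
      fin_cases j
      · exact absurd rfl hj
      · exact dvd_refl _
      · exact dvd_refl _)
    revert h1
    decide

end Pool.Agent.Results.MP_e29efe_nt.SmythMultiplicative
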